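import Pool.Agent.Helper98.Gamble.Final

/-!
Every strongly acyclic standard gambling game has a uniform value at every initial state
(the values of the houses need not even be convex).
-/

open MeasureTheory

namespace Pool.Agent.Results.MP_555e58_an.UniformValue

open GamblingGame

theorem result {X : Type*} {Y : Type*}
    [MetricSpace X] [CompactSpace X] [MeasurableSpace X] [BorelSpace X]
    [MetricSpace Y] [CompactSpace Y] [MeasurableSpace Y] [BorelSpace Y]
    (u : X × Y → ℝ) (hu : Continuous u)
    (Γ : X → Set (ProbabilityMeasure X)) (hΓ : IsHouse Γ) (hΓac : StronglyAcyclicMax Γ)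
    (Λ : Y → Set (ProbabilityMeasure Y)) (hΛ : IsHouse Λ) (hΛac : StronglyAcyclicMin Λ)
    (s : X × Y) : ∃ w : ℝ, IsUniformValue u Γ Λ s w :=
  uniform_value hu hΓ hΛ hΓac hΛac s

end Pool.Agent.Results.MP_555e58_an.UniformValue
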